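import Pool.Agent.W200.MR.Stm

set_option autoImplicit false

open Finset Filter Topology MeasureTheory

namespace Pool.Agent.W509.MR

open Pool.Agent.W200.MR

/-- the odd residues modulo `2a` which are `b` modulo `a` -/
def Rs (a b : ℕ) : Finset ℕ := (range (2 * a)).filter (fun r => r % a = b % a ∧ r % 2 = 1)

lemma sum_classes (F : ℕ → ℂ) (a b M : ℕ) (ha : 1 ≤ a) :
    ∑ m ∈ AP a b M, (if m % 2 = 1 then F m else 0) = ∑ r ∈ Rs a b, ∑ m ∈ AP (2 * a) r M, F m := by
  have h1 : ∀ r ∈ Rs a b, ∑ m ∈ AP (2 * a) r M, F m =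
      ∑ m ∈ Icc 1 M, if m % (2 * a) = r then F m else 0 := by
    intro r hr
    have hr2 : r < 2 * a := by
      simp only [Rs, mem_filter, mem_range] at hr
      exact hr.1
    rw [AP, sum_filter]
    apply sum_congr rfl
    intro m _
    rw [Nat.mod_eq_of_lt hr2]
  rw [sum_congr rfl h1, sum_comm, AP, sum_filter]
  apply sum_congr rfl
  intro m _
  rw [sum_ite_eq]
  have hmem : m % (2 * a) ∈ Rs a b ↔ (m % a = b % a ∧ m % 2 = 1) := by
    simp only [Rs, mem_filter, mem_range]
    have e1 : m % (2 * a) % a = m % a := Nat.mod_mod_of_dvd m (Dvd.intro_left 2 rfl)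
    have e2 : m % (2 * a) % 2 = m % 2 := Nat.mod_mod_of_dvd m (Dvd.intro a rfl)
    rw [e1, e2]
    have e3 : m % (2 * a) < 2 * a := Nat.mod_lt _ (by omega)
    tauto
  by_cases h2 : m % a = b % a
  · by_cases h3 : m % 2 = 1
    · rw [if_pos h2, if_pos h3, if_pos (hmem.2 ⟨h2, h3⟩)]
    · rw [if_pos h2, if_neg h3, if_neg (fun h => h3 (hmem.1 h).2)]
  · rw [if_neg h2, if_neg (fun h => h2 (hmem.1 h).1)]

lemma sum_image' (g : ℕ → ℂ) (a b N : ℕ) (ha : 1 ≤ a) :
    ∑ n ∈ Icc 1 N, g (a * n + b) =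
      ∑ m ∈ (AP a b (a * N + b)).filter (fun m => a + b ≤ m), g m := by
  apply sum_bij (fun n _ => a * n + b)
  · intro n hn
    rw [mem_Icc] at hn
    simp only [AP, mem_filter, mem_Icc]
    have h1 : a * n ≤ a * N := Nat.mul_le_mul_left a hn.2
    have h2 : a * 1 ≤ a * n := Nat.mul_le_mul_left a hn.1
    refine ⟨⟨⟨by omega, by omega⟩, ?_⟩, by omega⟩
    rw [Nat.mul_add_mod]
  · intro n _ n' _ h
    have h1 : a * n = a * n' := by simpa using h
    exact Nat.eq_of_mul_eq_mul_left (by omega) h1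
  · intro m hm
    simp only [AP, mem_filter, mem_Icc] at hm
    obtain ⟨⟨⟨h1, h2⟩, h3⟩, h4⟩ := hm
    have h5 : a ∣ m - b := (Nat.modEq_iff_dvd' (by omega)).1 (show b % a = m % a from h3.symm)
    obtain ⟨n, hn⟩ := h5
    have h6 : m = a * n + b := by omega
    refine ⟨n, ?_, h6.symm⟩
    rw [mem_Icc]
    constructor
    · by_contra h
      have : n = 0 := by omega
      subst this
      simp at hn
      omega
    · have h7 : a * n ≤ a * N := by omega
      exact Nat.le_of_mul_le_mul_left h7 (by omega)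
  · intro n _
    rfl

theorem t_OD : S_OD := by
  intro F hF hAP a b ha hb
  set g : ℕ → ℂ := fun m => if m % 2 = 1 then F m else 0 with hg
  have hg1 : ∀ m, ‖g m‖ ≤ 1 := by
    intro m
    simp only [hg]
    split_ifs
    · exact hF m
    · simp
  -- main term
  have hmain : Tendsto (fun N : ℕ => (1 / (N : ℂ)) *
      ∑ r ∈ Rs a b, ∑ m ∈ AP (2 * a) r (a * N + b), F m) atTop (𝓝 0) := by
    have hsub : Tendsto (fun N : ℕ => a * N + b) atTop atTop := by
      refine tendsto_atTop_mono (fun N => ?_) tendsto_id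
      simp only [id]
      nlinarith
    have hr : ∀ r ∈ Rs a b, Tendsto (fun N : ℕ => (1 / (N : ℂ)) *
        ∑ m ∈ AP (2 * a) r (a * N + b), F m) atTop (𝓝 0) := by
      intro r _
      have h1 := (hAP (2 * a) r (by omega)).comp hsub
      have h2 : Tendsto (fun N : ℕ => ((a : ℂ) + (b : ℂ) * (1 / (N : ℂ)))) atTop
          (𝓝 ((a : ℂ) + (b : ℂ) * 0)) := by
        refine tendsto_const_nhds.add (tendsto_const_nhds.mul ?_)
        exact tendsto_one_div_atTop_nhds_zero_nat (𝕜 := ℂ)
      have h3 := h2.mul h1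
      rw [mul_zero] at h3
      refine h3.congr' ?_
      filter_upwards [eventually_ge_atTop 1] with N hN
      have hN0 : (N : ℂ) ≠ 0 := by
        exact_mod_cast (by omega : N ≠ 0)
      have hM0 : ((a * N + b : ℕ) : ℂ) ≠ 0 := by
        exact_mod_cast (by omega : a * N + b ≠ 0)
      have e : ((a : ℂ) + (b : ℂ) * (1 / (N : ℂ))) = ((a * N + b : ℕ) : ℂ) * (1 / (N : ℂ)) := by
        push_cast
        field_simp
      simp only [Function.comp]
      rw [e]
      generalize (∑ m ∈ AP (2 * a) r (a * N + b), F m) = S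
      field_simp
    have h4 := tendsto_finsetSum (Rs a b) hr
    simp only [sum_const_zero] at h4
    refine h4.congr fun N => ?_
    rw [mul_sum]
  -- error term
  have herr : Tendsto (fun N : ℕ => (1 / (N : ℂ)) *
      ∑ m ∈ (AP a b (a * N + b)).filter (fun m => ¬ (a + b ≤ m)), g m) atTop (𝓝 0) := by
    have hb0 : Tendsto (fun N : ℕ => (1 / (N : ℝ)) * ((a + b : ℕ) : ℝ)) atTop (𝓝 0) := by
      have := (tendsto_one_div_atTop_nhds_zero_nat (𝕜 := ℝ)).mul_const (((a + b : ℕ) : ℝ))
      rwa [zero_mul] at this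
    refine squeeze_zero_norm (fun N => ?_) hb0
    rw [norm_mul]
    have h1 : ‖(1 : ℂ) / (N : ℂ)‖ = 1 / (N : ℝ) := by
      rw [norm_div, norm_one, Complex.norm_natCast]
    rw [h1]
    refine mul_le_mul_of_nonneg_left ?_ (by positivity)
    refine (norm_sum_le _ _).trans ?_
    refine (sum_le_sum fun m _ => hg1 m).trans ?_
    rw [sum_const, nsmul_eq_mul, mul_one]
    have h2 : (AP a b (a * N + b)).filter (fun m => ¬ (a + b ≤ m)) ⊆ range (a + b) := by
      intro m hm
      rw [mem_filter] at hm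
      rw [mem_range]
      omega
    have h3 := card_le_card h2
    rw [card_range] at h3
    exact_mod_cast h3
  have h5 := hmain.sub herr
  rw [sub_zero] at h5
  refine h5.congr fun N => ?_
  rw [← sum_classes F a b _ ha, ← mul_sub]
  congr 1
  have h6 := sum_image' g a b N ha
  have h7 := sum_filter_add_sum_filter_not (AP a b (a * N + b)) (fun m => a + b ≤ m) g
  have h8 : ∑ n ∈ Icc 1 N, (if (a * n + b) % 2 = 1 then F (a * n + b) else 0) =
      ∑ n ∈ Icc 1 N, g (a * n + b) := rfl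
  rw [h8, h6]
  have h9 : ∑ m ∈ AP a b (a * N + b), (if m % 2 = 1 then F m else 0) =
      ∑ m ∈ AP a b (a * N + b), g m := rfl
  rw [h9, ← h7]
  ring

end Pool.Agent.W509.MR
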